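import Mathlib
import Pool.Agent.V11221.CkCount

/-!
# The class `C_k[ℳ]` is not closed under arbitrary topological sums
-/

namespace Pool.Agent.Results.MP_041d76_gt.SumsFail

open Topology Pool.Agent.V11221.CkCount

universe u v w

/-- Membership in the class `C_k[ℳ]`: `T` is homeomorphic to a subspace of `C_k(X, Y)`
(continuous maps with the compact-open topology) for some separable metrizable space `X` and some
metrizable space `Y`. -/
def InCkM (T : Type w) [TopologicalSpace T] : Prop :=
  ∃ (X : Type u) (Y : Type v) (_ : TopologicalSpace X) (_ : TopologicalSpace Y),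
    TopologicalSpace.SeparableSpace X ∧ TopologicalSpace.MetrizableSpace X ∧
    TopologicalSpace.MetrizableSpace Y ∧ ∃ e : T → C(X, Y), IsEmbedding e

/-- There is a family of spaces in `C_k[ℳ]` whose topological sum is not in `C_k[ℳ]`
(whatever universes are allowed for `X` and `Y`). -/
theorem result :
    ∃ (I : Type) (T : I → Type) (_ : ∀ i, TopologicalSpace (T i)),
      (∀ i, InCkM.{0, 0} (T i)) ∧ ¬ InCkM.{u, v} (Σ i, T i) := by
  refine ⟨Set (ℕ → Bool), fun S => C(S, ℝ), fun S => inferInstance, ?_, ?_⟩
  · intro S
    exact ⟨S, ℝ, inferInstance, inferInstance, inferInstance, inferInstance, inferInstance,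
      id, IsEmbedding.id⟩
  · rintro ⟨X, Y, _, _, hX, -, hY, e, he⟩
    exact no_simultaneous_embedding (Z := X) (Y := Y) (fun S : Set (ℕ → Bool) => C(S, ℝ))
      (fun S => rbump S) (fun S => 0) rbump_dist
      (fun S => fun f => e ⟨S, f⟩)
      (fun S => (he.comp IsEmbedding.sigmaMk).isInducing)

end Pool.Agent.Results.MP_041d76_gt.SumsFail
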